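import Mathlib

/-!
# Windows of a computation in an expanding network (lists)
-/

namespace Pool.Agent.Helper1.NS.L

variable {d N : ℕ} {A : Type}

open Classical in
/-- The nodes of level `i` at whose value a query is made in the list `w` of cells. -/
noncomputable def outs (x : ℕ → Fin N → A) (i : ℕ) (w : List (Fin d × A)) : Finset (Fin N) :=
  Finset.univ.filter fun u => ∃ c ∈ w, c.2 = x i u

open Classical in
/-- The guessed nodes of level `i + 1` in the list `w` of cells: a query at the value is made, and one of the right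
cells of the node is not queried. -/
noncomputable def guessed (g : Fin d → Fin N → Fin N) (x : ℕ → Fin N → A) (i : ℕ) (w : List (Fin d × A)) :
    Finset (Fin N) :=
  (outs x (i + 1) w).filter fun u => ∃ s, (s, x i (g s u)) ∉ w

theorem mem_outs {x : ℕ → Fin N → A} {i : ℕ} {w : List (Fin d × A)} {u : Fin N} :
    u ∈ outs x i w ↔ ∃ c ∈ w, c.2 = x i u := by
  simp [outs]

theorem mem_guessed {g : Fin d → Fin N → Fin N} {x : ℕ → Fin N → A} {i : ℕ} {w : List (Fin d × A)} {u : Fin N} :
    u ∈ guessed g x i w ↔ (∃ c ∈ w, c.2 = x (i + 1) u) ∧ ∃ s, (s, x i (g s u)) ∉ w := by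
  simp only [guessed, Finset.mem_filter, mem_outs]

/-- The number of the nodes of a level at whose value a query is made is at most the length. -/
theorem card_outs_le {x : ℕ → Fin N → A} {i : ℕ} (hx : Function.Injective (x i)) (w : List (Fin d × A)) :
    (outs x i w).card ≤ w.length := by
  classical
  calc (outs x i w).card = ((outs x i w).image (x i)).card := (Finset.card_image_of_injective _ hx).symm
    _ ≤ (w.map Prod.snd).toFinset.card := by
        refine Finset.card_le_card fun a ha => ?_
        obtain ⟨u, hu, rfl⟩ := Finset.mem_image.1 ha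
        obtain ⟨c, hc, hcu⟩ := mem_outs.1 hu
        rw [List.mem_toFinset, List.mem_map]
        exact ⟨c, hc, hcu⟩
    _ ≤ (w.map Prod.snd).length := List.toFinset_card_le _
    _ = w.length := List.length_map _

theorem outs_append (x : ℕ → Fin N → A) (i : ℕ) (w w' : List (Fin d × A)) :
    outs x i (w ++ w') = outs x i w ∪ outs x i w' := by
  classical
  ext u
  simp only [mem_outs, Finset.mem_union, List.mem_append]
  constructor
  · rintro ⟨c, h | h, hc⟩
    · exact Or.inl ⟨c, h, hc⟩
    · exact Or.inr ⟨c, h, hc⟩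
  · rintro (⟨c, h, hc⟩ | ⟨c, h, hc⟩)
    · exact ⟨c, Or.inl h, hc⟩
    · exact ⟨c, Or.inr h, hc⟩

theorem card_outs_append (x : ℕ → Fin N → A) (i : ℕ) (w w' : List (Fin d × A)) :
    (outs x i (w ++ w')).card ≤ (outs x i w).card + (outs x i w').card := by
  classical
  rw [outs_append]
  exact Finset.card_union_le _ _

/-- A list with many nodes can be cut into two lists with many nodes. -/
theorem exists_cut {x : ℕ → Fin N → A} {i m : ℕ} (hx : Function.Injective (x i)) (w : List (Fin d × A))
    (hm : m + m ≤ (outs x i w).card) :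
    ∃ w₁ w₂, w = w₁ ++ w₂ ∧ m ≤ (outs x i w₁).card ∧ m ≤ (outs x i w₂).card := by
  classical
  have hex : ∃ c, m ≤ (outs x i (w.take c)).card := ⟨w.length, by rw [List.take_length]; omega⟩
  have hmc := Nat.find_spec hex
  set c := Nat.find hex with hc
  have hle : (outs x i (w.take c)).card ≤ m := by
    rcases Nat.eq_zero_or_pos c with h | h
    · rw [h, List.take_zero]
      have := card_outs_le hx ([] : List (Fin d × A))
      rw [List.length_nil] at this
      omega
    · have h1 : (outs x i (w.take (c - 1))).card < m := not_le.1 (Nat.find_min hex (by omega))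
      have h2 : w.take c = w.take (c - 1) ++ (w.drop (c - 1)).take 1 := by
        have h3 : c = (c - 1) + 1 := by omega
        conv_lhs => rw [h3]
        exact List.take_add
      have h3 := card_outs_append x i (w.take (c - 1)) ((w.drop (c - 1)).take 1)
      have h4 := card_outs_le hx ((w.drop (c - 1)).take 1)
      have h5 : ((w.drop (c - 1)).take 1).length ≤ 1 := by
        rw [List.length_take]
        exact min_le_left _ _
      rw [h2]
      omega
  have h5 := card_outs_append x i (w.take c) (w.drop c)
  rw [List.take_append_drop] at h5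
  exact ⟨w.take c, w.drop c, (List.take_append_drop c w).symm, hmc, by omega⟩

/-- If the network expands and no window has many guessed nodes, then a window with many nodes of a high level is
long. -/
theorem window_long {g : Fin d → Fin N → Fin N} {x : ℕ → Fin N → A} {ρ R : ℕ} {l : List (Fin d × A)}
    (hE : ∀ X : Finset (Fin N), ρ ≤ X.card →
      4 * ρ ≤ (Finset.univ.filter fun v => ∃ s, ∃ u ∈ X, g s u = v).card)
    (hx : ∀ i ≤ R, Function.Injective (x i))
    (hD : ∀ i < R, ∀ l₁ w l₂, l = l₁ ++ w ++ l₂ → (guessed g x i w).card < ρ) :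
    ∀ i ≤ R, ∀ l₁ w l₂, l = l₁ ++ w ++ l₂ → 2 * ρ ≤ (outs x i w).card → 2 ^ i * (2 * ρ) ≤ w.length := by
  classical
  intro i
  induction i with
  | zero =>
    intro hi l₁ w l₂ hl hm
    have := card_outs_le (hx 0 hi) w
    omega
  | succ i ih =>
    intro hi l₁ w l₂ hl hm
    have hg := hD i (by omega) l₁ w l₂ hl
    set X := (outs x (i + 1) w) \ (guessed g x i w) with hX
    have hXc : ρ ≤ X.card := by
      have h1 : (outs x (i + 1) w).card - (guessed g x i w).card ≤ X.card :=
        Finset.le_card_sdiff (guessed g x i w) (outs x (i + 1) w)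
      omega
    have hsub : (Finset.univ.filter fun v => ∃ s, ∃ u ∈ X, g s u = v) ⊆ outs x i w := by
      intro v hv
      obtain ⟨s, u, hu, rfl⟩ := (Finset.mem_filter.1 hv).2
      rw [hX, Finset.mem_sdiff, guessed, Finset.mem_filter, not_and, not_exists] at hu
      have h1 := hu.2 hu.1 s
      exact mem_outs.2 ⟨_, not_not.1 h1, rfl⟩
    have h4 : 2 * ρ + 2 * ρ ≤ (outs x i w).card := by
      have h1 := (hE X hXc).trans (Finset.card_le_card hsub)
      omega
    obtain ⟨w₁, w₂, rfl, h5, h6⟩ := exists_cut (hx i (by omega)) w h4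
    have h7 := ih (by omega) l₁ w₁ (w₂ ++ l₂) (by rw [hl]; simp) h5
    have h8 := ih (by omega) (l₁ ++ w₁) w₂ l₂ (by rw [hl]; simp) h6
    rw [pow_succ, List.length_append]
    have h9 : 2 ^ i * 2 * (2 * ρ) = 2 ^ i * (2 * ρ) + 2 ^ i * (2 * ρ) := by ring
    omega

/-- In an expanding network some window of a computation which is not long has many guessed nodes. -/
theorem exists_window {g : Fin d → Fin N → Fin N} {x : ℕ → Fin N → A} {ρ R : ℕ} {l : List (Fin d × A)}
    (hE : ∀ X : Finset (Fin N), ρ ≤ X.card →
      4 * ρ ≤ (Finset.univ.filter fun v => ∃ s, ∃ u ∈ X, g s u = v).card)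
    (hx : ∀ i ≤ R, Function.Injective (x i)) (hL : l.length < 2 ^ R * (2 * ρ))
    (hout : 2 * ρ ≤ (outs x R l).card) :
    ∃ i < R, ∃ l₁ w l₂, l = l₁ ++ w ++ l₂ ∧ ρ ≤ (guessed g x i w).card := by
  by_contra hno
  push Not at hno
  have := window_long hE hx (fun i hi l₁ w l₂ hl => hno i hi l₁ w l₂ hl) R le_rfl [] l [] (by simp) hout
  omega

end Pool.Agent.Helper1.NS.L
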