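import Pool.Agent.Helper74.NS.Basic
import Pool.Agent.Helper1.NS.WinL

/-!
# Computations without windows with many half done elements are long
-/

namespace Pool.Agent.Helper1.NS

open Pool.Agent.Helper74.NS

variable {N d : ℕ} {A : Type} [AddCommGroup A]

theorem outs_eq {g : Fin d → Equiv.Perm (Fin N)} {x0 : Fin N → A} {I : Cell d A → A} (i : ℕ)
    (l : List (Cell d A)) : L.outs (val g x0 I) i l = outs g x0 I i l := by
  ext u
  simp only [L.mem_outs, outs, Finset.mem_filter, Finset.mem_univ, true_and]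
  constructor
  · rintro ⟨c, hc, hcu⟩
    exact ⟨c.1, by rw [← hcu]; exact hc⟩
  · rintro ⟨s, hs⟩
    exact ⟨_, hs, rfl⟩

theorem guessed_eq {g : Fin d → Equiv.Perm (Fin N)} {x0 : Fin N → A} {I : Cell d A → A} (i : ℕ)
    (l : List (Cell d A)) : L.guessed (fun s => g s) (val g x0 I) i l = half g x0 I i l := by
  ext u
  simp only [L.mem_guessed, half, outs, Finset.mem_filter, Finset.mem_univ, true_and]
  constructor
  · rintro ⟨⟨c, hc, hcu⟩, h⟩
    exact ⟨⟨c.1, by rw [← hcu]; exact hc⟩, h⟩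
  · rintro ⟨⟨s, hs⟩, h⟩
    exact ⟨⟨_, hs, rfl⟩, h⟩

/-- P2: without windows with many half done elements the computation is long. -/
theorem long {g : Fin d → Equiv.Perm (Fin N)} {x0 : Fin N → A} {R a : ℕ} {I : Cell d A → A}
    (hE : Expands g a) (h : CF g x0 R I) (l : List (Cell d A)) (hl : 4 * a ≤ (outs g x0 I R l).card)
    (hh : ∀ i < R, ∀ p w q, l = p ++ w ++ q → (half g x0 I i w).card < a) : 2 ^ R * (4 * a) ≤ l.length := by
  have hx : ∀ i ≤ R, Function.Injective (val g x0 I i) := fun i hi u v huv =>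
    (h i i u v hi hi huv).2
  rw [← outs_eq] at hl
  obtain ⟨w₁, w₂, rfl, h1, h2⟩ := L.exists_cut (m := 2 * a) (hx R le_rfl) l (by omega)
  have hD : ∀ i < R, ∀ p w q, w₁ ++ w₂ = p ++ w ++ q →
      (L.guessed (fun s => g s) (val g x0 I) i w).card < a := by
    intro i hi p w q hpw
    rw [guessed_eq]
    exact hh i hi p w q hpw
  have h3 := L.window_long (g := fun s => g s) hE hx hD R le_rfl [] w₁ w₂ (by simp) h1
  have h4 := L.window_long (g := fun s => g s) hE hx hD R le_rfl w₁ w₂ [] (by simp) h2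
  rw [List.length_append]
  have h5 : 2 ^ R * (4 * a) = 2 ^ R * (2 * a) + 2 ^ R * (2 * a) := by ring
  omega

end Pool.Agent.Helper1.NS
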