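import Pool.Agent.Helper74.NS.Class
import Pool.Agent.Helper66.NS.P4
import Pool.Agent.Helper60.NS.Cf
import Pool.Agent.Helper78.NS.RootB
import Pool.Agent.Helper1.NS.Long

/-!
# The decision version
-/

namespace Pool.Agent.Helper1.NS

open Pool.Agent.Helper74.NS

variable {N d : ℕ} {A : Type} [AddCommGroup A] {S : ℕ}

/-- P4b. -/
theorem good_bound [Fintype A] (B : NBP (Cell d A) A S) (g : Fin d → Equiv.Perm (Fin N)) (x0 : Fin N → A)
    {R T a : ℕ} (ha : 1 ≤ a) (hE : Expands g a) :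
    Nat.card {I : Cell d A → A // CF g x0 R I ∧ ∃ l t, Best B g x0 R I B.start l t ∧ Nat.card {c // c ∈ l} ≤ T ∧
        4 * a ≤ (outs g x0 I R l).card ∧ l.length ≤ 2 ^ R} * Fintype.card A ^ a ≤
      R * N.choose a * d ^ a * S ^ 2 * T ^ a * Nat.card (Cell d A → A) :=
  Pool.Agent.Helper66.NS.good_bound_of B g x0 ha (fun _ hI l => long hE hI l)
    (fun _ hi u hu r s t I hI => class_bound B g x0 hi u hu r s t I hI)

open Classical in
/-- The content `c` in the cell `x₀`, and `0` in the other cells. -/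
noncomputable def sg (x₀ : Cell d A) (c : A) : Cell d A → A := fun x => if x = x₀ then c else 0

theorem sg_same (x₀ : Cell d A) (c : A) : sg x₀ c x₀ = c := by
  unfold sg
  rw [if_pos rfl]

theorem sg_ne {x₀ x : Cell d A} (c : A) (h : x ≠ x₀) : sg x₀ c x = 0 := by
  unfold sg
  rw [if_neg h]

/-- The shift of the content of the cell of the first table at the element `u₀` of row `R`. -/
noncomputable def tr [NeZero d] (g : Fin d → Equiv.Perm (Fin N)) (x0 : Fin N → A) (R : ℕ) (u₀ : Fin N) (c : A)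
    (I : Cell d A → A) : Cell d A → A :=
  I + sg (0, val g x0 I R u₀) c

section tr

variable [NeZero d] {g : Fin d → Equiv.Perm (Fin N)} {x0 : Fin N → A} {R : ℕ} {u₀ : Fin N}

theorem sg_right {I : Cell d A → A} {c : A} (x : Cell d A) (h : sg ((0 : Fin d), val g x0 I R u₀) c x ≠ 0) :
    ∃ s v, x = (s, val g x0 I R v) := by
  by_contra hno
  apply h
  refine sg_ne c ?_
  rintro rfl
  exact hno ⟨_, _, rfl⟩

theorem val_tr {I : Cell d A → A} (h : CF g x0 R I) (c : A) {j : ℕ} (hj : j ≤ R) (u : Fin N) :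
    val g x0 (tr g x0 R u₀ c I) j u = val g x0 I j u :=
  val_add h _ sg_right j hj u

theorem CF_tr {I : Cell d A → A} (h : CF g x0 R I) (c : A) : CF g x0 R (tr g x0 R u₀ c I) :=
  CF_add h _ sg_right

theorem out_tr {I : Cell d A → A} (h : CF g x0 R I) (c : A) :
    out g x0 R (tr g x0 R u₀ c I) = out g x0 R I + c := by
  rw [tr, out_add h _ sg_right]
  congr 1
  rw [Finset.sum_eq_single u₀]
  · exact sg_same _ c
  · intro u _ hu
    refine sg_ne c fun e => ?_
    exact hu (h R R u u₀ le_rfl le_rfl (Prod.mk.inj e).2).2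
  · exact fun h => absurd (Finset.mem_univ _) h

theorem tr_tr {I : Cell d A → A} (h : CF g x0 R I) (c c' : A) :
    tr g x0 R u₀ c' (tr g x0 R u₀ c I) = tr g x0 R u₀ (c + c') I := by
  have h1 : val g x0 (tr g x0 R u₀ c I) R u₀ = val g x0 I R u₀ := val_tr h c le_rfl u₀
  conv_lhs => rw [tr, h1, tr]
  rw [tr, add_assoc]
  congr 1
  funext x
  rw [Pi.add_apply]
  by_cases hx : x = (0, val g x0 I R u₀)
  · rw [hx, sg_same, sg_same, sg_same]
  · rw [sg_ne _ hx, sg_ne _ hx, sg_ne _ hx, add_zero]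

theorem tr_zero (I : Cell d A → A) : tr g x0 R u₀ 0 I = I := by
  rw [tr]
  funext x
  rw [Pi.add_apply]
  by_cases hx : x = (0, val g x0 I R u₀)
  · rw [hx, sg_same, add_zero]
  · rw [sg_ne _ hx, add_zero]

open Classical in
/-- Equidistribution of the result. -/
theorem card_out [Fintype A] (g : Fin d → Equiv.Perm (Fin N)) (x0 : Fin N → A) (R : ℕ) (u₀ : Fin N) (Y : Finset A) :
    Nat.card {I : Cell d A → A // CF g x0 R I ∧ out g x0 R I ∈ Y} * Fintype.card A =
      Y.card * Nat.card {I : Cell d A → A // CF g x0 R I} := by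
  let e : {I : Cell d A → A // CF g x0 R I ∧ out g x0 R I ∈ Y} × A ≃ Y × {I : Cell d A → A // CF g x0 R I} :=
    { toFun := fun p => (⟨out g x0 R p.1.1, p.1.2.2⟩, ⟨tr g x0 R u₀ p.2 p.1.1, CF_tr p.1.2.1 p.2⟩)
      invFun := fun p => (⟨tr g x0 R u₀ (p.1.1 - out g x0 R p.2.1) p.2.1, CF_tr p.2.2 _, by
        rw [out_tr p.2.2, add_sub_cancel]; exact p.1.2⟩, out g x0 R p.2.1 - p.1.1)
      left_inv := by
        rintro ⟨⟨I, h1, h2⟩, c⟩
        refine Prod.ext (Subtype.ext ?_) ?_
        · change tr g x0 R u₀ (out g x0 R I - out g x0 R (tr g x0 R u₀ c I)) (tr g x0 R u₀ c I) = I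
          rw [tr_tr h1, out_tr h1]
          have : c + (out g x0 R I - (out g x0 R I + c)) = 0 := by abel
          rw [this, tr_zero]
        · change out g x0 R (tr g x0 R u₀ c I) - out g x0 R I = c
          rw [out_tr h1]
          abel
      right_inv := by
        rintro ⟨⟨y, hy⟩, ⟨I, h1⟩⟩
        refine Prod.ext (Subtype.ext ?_) (Subtype.ext ?_)
        · change out g x0 R (tr g x0 R u₀ (y - out g x0 R I) I) = y
          rw [out_tr h1]
          abel
        · change tr g x0 R u₀ (out g x0 R I - y) (tr g x0 R u₀ (y - out g x0 R I) I) = I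
          rw [tr_tr h1]
          have : y - out g x0 R I + (out g x0 R I - y) = 0 := by abel
          rw [this, tr_zero] }
  have := Nat.card_congr e
  rw [Nat.card_prod, Nat.card_prod, Nat.card_eq_fintype_card (α := A), Nat.card_eq_fintype_card (α := Y),
    Fintype.card_coe] at this
  exact this

end tr

/-- The numbers. -/
theorem numbers {y n v m b₁ b₂ rs : ℝ} (hy0 : 0 ≤ y) (hy1 : y ≤ 1) (hv : 0 ≤ v) (hm : 0 ≤ m) (hb₁ : 0 ≤ b₁)
    (hb₂ : 0 ≤ b₂) (h1 : y * (n - v) ≤ b₁ + m + rs) (h2 : rs * (1 - y) ≤ 2 * y * b₂) :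
    min y ((1 - y) / 2) * n - v - m ≤ b₁ + b₂ := by
  rcases le_total (3 * y) 1 with h | h
  · rw [min_eq_left (by linarith)]
    have h3 : rs ≤ b₂ := by
      have h4 : rs * (1 - y) ≤ b₂ * (1 - y) := by nlinarith
      exact le_of_mul_le_mul_right h4 (by linarith)
    nlinarith
  · rw [min_eq_right (by linarith)]
    have hy : 0 < y := by linarith
    have h3 : y * ((1 - y) * (n - v)) ≤ y * (2 * (b₁ + m) + 2 * b₂) := by
      have h4 : (1 - y) * (y * (n - v)) ≤ (1 - y) * (b₁ + m + rs) := mul_le_mul_of_nonneg_left h1 (by linarith)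
      have h5 : (1 - y) * (b₁ + m) ≤ 2 * y * (b₁ + m) := mul_le_mul_of_nonneg_right (by linarith) (by linarith)
      nlinarith
    have h6 := le_of_mul_le_mul_left h3 hy
    nlinarith

/-- P8b: the decision version. -/
theorem decision_bound [Fintype A] [NeZero d] (B : NBP (Cell d A) A S) (g : Fin d → Equiv.Perm (Fin N)) (x0 : Fin N → A)
    (h0 : Function.Injective x0) {R T a : ℕ} (ha : 1 ≤ a) (hN : 8 * a ≤ N) (hE : Expands g a) (Y : Finset A) (y : ℝ)
    (hy : y = Y.card / Fintype.card A) :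
    (min y ((1 - y) / 2) - ((R + 1) * N) ^ 2 / Fintype.card A -
        R * N.choose a * (S : ℝ) ^ 2 * (d * T / Fintype.card A) ^ a) * Nat.card (Cell d A → A) ≤
      Nat.card {I : Cell d A → A // ¬ (((∃ l b, B.Ends I l b) ↔ out g x0 R I ∈ Y) ∧
        ∀ l b, B.Shortest I l b → Nat.card {c // c ∈ l} ≤ T ∧ min S l.length ≤ 2 ^ R)} := by
  classical
  have hk : (0 : ℝ) < Fintype.card A := by
    have : 0 < Fintype.card A := Fintype.card_pos_iff.2 ⟨0⟩
    exact_mod_cast this
  have hYk : Y.card ≤ Fintype.card A := Finset.card_le_univ Y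
  have hyk : y * Fintype.card A = Y.card := by
    rw [hy]
    field_simp
  set Bad : (Cell d A → A) → Prop := fun I => ¬ (((∃ l b, B.Ends I l b) ↔ out g x0 R I ∈ Y) ∧
        ∀ l b, B.Shortest I l b → Nat.card {c // c ∈ l} ≤ T ∧ min S l.length ≤ 2 ^ R) with hBad
  have card_sub : ∀ (P : (Cell d A → A) → Prop) [DecidablePred P],
      Nat.card {I // P I} = (Finset.univ.filter P).card := by
    intro P _
    rw [Nat.card_eq_fintype_card, Fintype.card_subtype]
  -- the parts
  have hcf := Pool.Agent.Helper60.NSF.card_not_CF g x0 h0 R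
  have hgood := good_bound B g x0 (R := R) (T := T) ha hE
  have hroot := Pool.Agent.Helper78.NS.root_bound' B g x0 (R := R) hN (by omega) Y
  have hcy := card_out g x0 R ⟨0, by omega⟩ Y
  set nI : ℕ := Nat.card (Cell d A → A) with hnI
  have hcover : Nat.card {I : Cell d A → A // CF g x0 R I ∧ out g x0 R I ∈ Y} ≤
      Nat.card {I : Cell d A → A // Bad I ∧ out g x0 R I ∈ Y} +
      Nat.card {I : Cell d A → A // CF g x0 R I ∧ ∃ l t, Best B g x0 R I B.start l t ∧ Nat.card {c // c ∈ l} ≤ T ∧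
        4 * a ≤ (outs g x0 I R l).card ∧ l.length ≤ 2 ^ R} +
      Nat.card {I : Cell d A → A // CF g x0 R I ∧ out g x0 R I ∈ Y ∧
        ∃ l b, B.Ends I l b ∧ (outs g x0 I R l).card < 4 * a} := by
    rw [card_sub, card_sub, card_sub, card_sub]
    refine (Finset.card_le_card ?_).trans ((Finset.card_union_le _ _).trans
      (Nat.add_le_add_right (Finset.card_union_le _ _) _))
    intro I hI
    obtain ⟨hCF, hout⟩ := (Finset.mem_filter.1 hI).2
    by_cases hbad : Bad I
    · exact Finset.mem_union_left _ (Finset.mem_union_left _ (Finset.mem_filter.2 ⟨Finset.mem_univ _, hbad, hout⟩))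
    have h1 := not_not.1 hbad
    obtain ⟨l₀, b₀, hl₀⟩ := h1.1.2 hout
    obtain ⟨l, b, t, hbest, hact, hsh⟩ := exists_best g x0 R hl₀
    obtain ⟨hT, hR⟩ := h1.2 l b hsh
    rw [min_eq_right (shortest_lt hsh).le] at hR
    by_cases ho : (outs g x0 I R l).card < 4 * a
    · exact Finset.mem_union_right _ (Finset.mem_filter.2 ⟨Finset.mem_univ _, hCF, hout, l, b,
        ⟨t, hbest.run, hact⟩, ho⟩)
    · exact Finset.mem_union_left _ (Finset.mem_union_right _ (Finset.mem_filter.2 ⟨Finset.mem_univ _, hCF, l, t,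
        hbest, hT, not_lt.1 ho, hR⟩))
  have hsplit : Nat.card {I : Cell d A → A // Bad I} =
      Nat.card {I : Cell d A → A // Bad I ∧ out g x0 R I ∈ Y} +
      Nat.card {I : Cell d A → A // Bad I ∧ out g x0 R I ∉ Y} := by
    have h1 := Finset.card_filter_add_card_filter_not (s := Finset.univ.filter Bad)
      (fun I : Cell d A → A => out g x0 R I ∈ Y)
    rw [Finset.filter_filter, Finset.filter_filter] at h1
    rw [card_sub, card_sub, card_sub]
    exact h1.symm
  have herr : Nat.card {I : Cell d A → A // out g x0 R I ∉ Y ∧ ∃ l b, B.Ends I l b} ≤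
      Nat.card {I : Cell d A → A // Bad I ∧ out g x0 R I ∉ Y} := by
    rw [card_sub, card_sub]
    refine Finset.card_le_card fun I hI => ?_
    obtain ⟨h1, h2⟩ := (Finset.mem_filter.1 hI).2
    exact Finset.mem_filter.2 ⟨Finset.mem_univ _, fun h => h1 (h.1.1 h2), h1⟩
  have hCFc : Nat.card {I : Cell d A → A // CF g x0 R I} + Nat.card {I : Cell d A → A // ¬ CF g x0 R I} = nI := by
    rw [card_sub, card_sub, Finset.card_filter_add_card_filter_not, hnI, Nat.card_eq_fintype_card, Finset.card_univ]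
  set cf := Nat.card {I : Cell d A → A // CF g x0 R I}
  set ncf := Nat.card {I : Cell d A → A // ¬ CF g x0 R I}
  set cy := Nat.card {I : Cell d A → A // CF g x0 R I ∧ out g x0 R I ∈ Y}
  set b₁ := Nat.card {I : Cell d A → A // Bad I ∧ out g x0 R I ∈ Y}
  set b₂ := Nat.card {I : Cell d A → A // Bad I ∧ out g x0 R I ∉ Y}
  set gd := Nat.card {I : Cell d A → A // CF g x0 R I ∧ ∃ l t, Best B g x0 R I B.start l t ∧
    Nat.card {c // c ∈ l} ≤ T ∧ 4 * a ≤ (outs g x0 I R l).card ∧ l.length ≤ 2 ^ R}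
  set rs := Nat.card {I : Cell d A → A // CF g x0 R I ∧ out g x0 R I ∈ Y ∧
    ∃ l b, B.Ends I l b ∧ (outs g x0 I R l).card < 4 * a}
  set er := Nat.card {I : Cell d A → A // out g x0 R I ∉ Y ∧ ∃ l b, B.Ends I l b}
  -- in real numbers
  have hcfR : (ncf : ℝ) ≤ ((R + 1) * N) ^ 2 / Fintype.card A * nI := by
    rw [div_mul_eq_mul_div, le_div_iff₀ hk]
    exact_mod_cast hcf
  have hgdR : (gd : ℝ) ≤ R * N.choose a * (S : ℝ) ^ 2 * (d * T / Fintype.card A) ^ a * nI := by
    rw [div_pow, mul_div_assoc', div_mul_eq_mul_div, le_div_iff₀ (pow_pos hk a), mul_pow]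
    have h1 : (gd : ℝ) * (Fintype.card A : ℝ) ^ a ≤ R * N.choose a * d ^ a * S ^ 2 * T ^ a * nI := by
      exact_mod_cast hgood
    calc (gd : ℝ) * (Fintype.card A : ℝ) ^ a ≤ R * N.choose a * d ^ a * S ^ 2 * T ^ a * nI := h1
      _ = R * N.choose a * (S : ℝ) ^ 2 * (d ^ a * T ^ a) * nI := by ring
  have hrsR : (rs : ℝ) * (1 - y) ≤ 2 * y * b₂ := by
    have h1 : (rs : ℝ) * (Fintype.card A - Y.card) ≤ 2 * Y.card * er := by
      have : ((rs * (Fintype.card A - Y.card) : ℕ) : ℝ) ≤ ((2 * Y.card * er : ℕ) : ℝ) := by exact_mod_cast hroot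
      rw [Nat.cast_mul, Nat.cast_sub hYk] at this
      push_cast at this
      exact this
    have h2 : (er : ℝ) ≤ b₂ := by exact_mod_cast herr
    have h3 : (2 * Y.card * er : ℝ) ≤ 2 * Y.card * b₂ := mul_le_mul_of_nonneg_left h2 (by positivity)
    rw [← hyk] at h1 h3
    have h4 : (Fintype.card A : ℝ) * (rs * (1 - y)) ≤ Fintype.card A * (2 * y * b₂) := by
      calc (Fintype.card A : ℝ) * (rs * (1 - y)) = rs * (Fintype.card A - y * Fintype.card A) := by ring
        _ ≤ 2 * (y * Fintype.card A) * b₂ := h1.trans h3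
        _ = _ := by ring
    exact le_of_mul_le_mul_left h4 hk
  have hcyR : (cy : ℝ) = y * cf := by
    have h1 : (cy : ℝ) * Fintype.card A = Y.card * cf := by exact_mod_cast hcy
    rw [← hyk] at h1
    have h2 : (cy : ℝ) * Fintype.card A = y * cf * Fintype.card A := by rw [h1]; ring
    exact mul_right_cancel₀ hk.ne' h2
  have hy0 : 0 ≤ y := by rw [hy]; positivity
  have hy1 : y ≤ 1 := by
    rw [hy, div_le_one hk]
    exact_mod_cast hYk
  have hmain : y * (nI - ((R + 1) * N) ^ 2 / Fintype.card A * nI) ≤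
      b₁ + R * N.choose a * (S : ℝ) ^ 2 * (d * T / Fintype.card A) ^ a * nI + rs := by
    have h1 : (cf : ℝ) + ncf = nI := by exact_mod_cast hCFc
    have h2 : (cy : ℝ) ≤ b₁ + gd + rs := by exact_mod_cast hcover
    have h3 : y * (nI - ((R + 1) * N) ^ 2 / Fintype.card A * nI) ≤ y * cf :=
      mul_le_mul_of_nonneg_left (by linarith) hy0
    linarith
  have := numbers hy0 hy1 (v := ((R + 1) * N) ^ 2 / Fintype.card A * nI) (by positivity)
    (m := R * N.choose a * (S : ℝ) ^ 2 * (d * T / Fintype.card A) ^ a * nI) (by positivity)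
    (b₁ := b₁) (b₂ := b₂) (by positivity) (by positivity) hmain hrsR
  rw [hsplit]
  push_cast
  calc _ = min y ((1 - y) / 2) * nI - ((R + 1) * N) ^ 2 / Fintype.card A * nI -
        R * N.choose a * (S : ℝ) ^ 2 * (d * T / Fintype.card A) ^ a * nI := by ring
    _ ≤ _ := this

end Pool.Agent.Helper1.NS
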