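import Pool.Agent.Helper66.NS.Der

/-!
# Simulation of nondeterministic pushdown programs by nondeterministic programs without stack
-/

namespace Pool.Agent.Helper1.NS

open Pool.Agent.Helper74.NS Pool.Agent.Helper66.NS

/-! ## Programs with any finite type of states -/

section transport

variable {σ C A : Type}

/-- The runs of a program with states `σ`. -/
inductive TRun (act : σ → (C × (A → Set σ)) ⊕ A) (I : C → A) : σ → List C → σ → Prop
  | nil (s : σ) : TRun act I s [] s
  | cons (s s' t : σ) (c : C) (next : A → Set σ) (l : List C) :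
      act s = Sum.inl (c, next) → s' ∈ next (I c) → TRun act I s' l t → TRun act I s (c :: l) t

/-- The program with the states `Fin (card σ)`. -/
noncomputable def toNBP [Fintype σ] (start : σ) (act : σ → (C × (A → Set σ)) ⊕ A) : NBP C A (Fintype.card σ) where
  start := Fintype.equivFin σ start
  act i := Sum.map (fun x => (x.1, fun a => (Fintype.equivFin σ) '' (x.2 a))) id (act ((Fintype.equivFin σ).symm i))

theorem toNBP_run [Fintype σ] {start : σ} {act : σ → (C × (A → Set σ)) ⊕ A} {I : C → A} {s t : σ} {l : List C}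
    (h : TRun act I s l t) : (toNBP start act).Run I (Fintype.equivFin σ s) l (Fintype.equivFin σ t) := by
  induction h with
  | nil s => exact NBP.Run.nil _
  | cons s s' t c next l h1 h2 _ ih =>
    refine NBP.Run.cons _ _ _ c (fun a => (Fintype.equivFin σ) '' (next a)) l ?_ ⟨s', h2, rfl⟩ ih
    simp [toNBP, h1]

theorem run_toNBP [Fintype σ] {start : σ} {act : σ → (C × (A → Set σ)) ⊕ A} {I : C → A}
    {i j : Fin (Fintype.card σ)} {l : List C} (h : (toNBP start act).Run I i l j) :
    TRun act I ((Fintype.equivFin σ).symm i) l ((Fintype.equivFin σ).symm j) := by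
  induction h with
  | nil s => exact TRun.nil _
  | cons s s' t c next l h1 h2 _ ih =>
    rcases h : act ((Fintype.equivFin σ).symm s) with x | x
    · simp only [toNBP, h, Sum.map_inl] at h1
      have h3 := Sum.inl_injective h1
      have h4 : x.1 = c := (Prod.mk.inj h3).1
      have h5 : (fun a => (Fintype.equivFin σ) '' (x.2 a)) = next := (Prod.mk.inj h3).2
      rw [← h5] at h2
      obtain ⟨s'', h6, h7⟩ := h2
      subst h4
      refine TRun.cons _ s'' _ x.1 x.2 l h h6 ?_
      rw [← h7, Equiv.symm_apply_apply] at ih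
      exact ih
    · simp [toNBP, h] at h1

theorem toNBP_ends [Fintype σ] {start : σ} {act : σ → (C × (A → Set σ)) ⊕ A} {I : C → A} {l : List C} {a : A} :
    (toNBP start act).Ends I l a ↔ ∃ t, TRun act I start l t ∧ act t = Sum.inr a := by
  constructor
  · rintro ⟨j, h1, h2⟩
    have h3 := run_toNBP h1
    refine ⟨(Fintype.equivFin σ).symm j, ?_, ?_⟩
    · have h4 : (Fintype.equivFin σ).symm ((toNBP start act).start) = start := by simp [toNBP]
      rw [h4] at h3
      exact h3
    · rcases h : act ((Fintype.equivFin σ).symm j) with x | x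
      · simp [toNBP, h] at h2
      · simp only [toNBP, h, Sum.map_inr, id] at h2
        rw [Sum.inr_injective h2]
  · rintro ⟨t, h1, h2⟩
    refine ⟨Fintype.equivFin σ t, toNBP_run h1, ?_⟩
    simp [toNBP, h2]

end transport

/-! ## Obligations -/

variable {C A Q Γ : Type}

/-- Moves without query: lists of obligations. -/
inductive Sil (P : NPBP C A Q Γ) : List (Bool × Q × Q) → List (Bool × Q × Q) → Prop
  | refl (L : List (Bool × Q × Q)) : Sil P L L
  | nil (b : Bool) (p : Q) (L L' : List (Bool × Q × Q)) : Sil P L L' → Sil P ((b, p, p) :: L) L'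
  | pp (b : Bool) (p p1 p2 r q : Q) (γ : Γ) (next : Set (Γ × Q)) (next' : Γ → Set Q) (L L' : List (Bool × Q × Q)) :
      P.act p = .push next → (γ, p1) ∈ next → P.act p2 = .pop next' → r ∈ next' γ →
      Sil P ((true, p1, p2) :: (b, r, q) :: L) L' → Sil P ((b, p, q) :: L) L'
  | pp' (b : Bool) (p p1 p2 r q : Q) (γ : Γ) (next : Set (Γ × Q)) (next' : Γ → Set Q) (L L' : List (Bool × Q × Q)) :
      P.act p = .push next → (γ, p1) ∈ next → P.act p2 = .pop next' → r ∈ next' γ →
      Sil P ((b, r, q) :: (true, p1, p2) :: L) L' → Sil P ((b, p, q) :: L) L'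
  | po (p p1 q : Q) (γ : Γ) (next : Set (Γ × Q)) (L L' : List (Bool × Q × Q)) :
      P.act p = .push next → (γ, p1) ∈ next → Sil P ((false, p1, q) :: L) L' → Sil P ((false, p, q) :: L) L'

/-- All obligations of the list have derivations. -/
inductive Drv (P : NPBP C A Q Γ) (I : C → A) : List (Bool × Q × Q) → List C → Prop
  | nil : Drv P I [] []
  | cons (b : Bool) (p q : Q) (L : List (Bool × Q × Q)) (l1 : List C) (n : ℕ) (l2 : List C) :
      Der P I b p q l1 n → Drv P I L l2 → Drv P I ((b, p, q) :: L) (l1 ++ l2)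

theorem sil_drv {P : NPBP C A Q Γ} {I : C → A} {L L' : List (Bool × Q × Q)} (h : Sil P L L') {l' : List C}
    (h' : Drv P I L' l') : ∃ l, Drv P I L l ∧ l.Perm l' := by
  induction h with
  | refl L => exact ⟨l', h', List.Perm.refl _⟩
  | nil b p L L' _ ih =>
    obtain ⟨l, h1, h2⟩ := ih h'
    exact ⟨[] ++ l, Drv.cons b p p L [] 0 l (Der.nil b p) h1, h2⟩
  | pp b p p1 p2 r q γ next next' L L' h1 h2 h3 h4 _ ih =>
    obtain ⟨l, h5, h6⟩ := ih h'
    cases h5 with
    | cons _ _ _ _ l1 n1 l23 h7 h8 =>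
      cases h8 with
      | cons _ _ _ _ l2 n2 l3 h9 h10 =>
        refine ⟨(l1 ++ l2) ++ l3, Drv.cons b p q L _ _ l3
          (Der.pushpop b p p1 p2 r q γ next next' l1 l2 n1 n2 h1 h2 h7 h3 h4 h9) h10, ?_⟩
        rw [List.append_assoc]
        exact h6
  | pp' b p p1 p2 r q γ next next' L L' h1 h2 h3 h4 _ ih =>
    obtain ⟨l, h5, h6⟩ := ih h'
    cases h5 with
    | cons _ _ _ _ l2 n2 l13 h7 h8 =>
      cases h8 with
      | cons _ _ _ _ l1 n1 l3 h9 h10 =>
        refine ⟨(l1 ++ l2) ++ l3, Drv.cons b p q L _ _ l3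
          (Der.pushpop b p p1 p2 r q γ next next' l1 l2 n1 n2 h1 h2 h9 h3 h4 h7) h10, List.Perm.trans ?_ h6⟩
        rw [← List.append_assoc]
        exact List.Perm.append_right _ List.perm_append_comm
  | po p p1 q γ next L L' h1 h2 _ ih =>
    obtain ⟨l, h5, h6⟩ := ih h'
    cases h5 with
    | cons _ _ _ _ l1 n1 l2 h7 h8 =>
      exact ⟨l1 ++ l2, Drv.cons false p q L l1 _ l2 (Der.pushopen p p1 q γ next l1 n1 h1 h2 h7) h8, h6⟩

/-- The states: the start state, and a final state together with a list of at most `m + 1` obligations. -/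
abbrev St (P : NPBP C A Q Γ) (m : ℕ) : Type :=
  Option ({f : Q // ∃ a, P.act f = .out a} × {L : List (Bool × Q × Q) // L.length ≤ m + 1})

open Classical in
/-- The instructions. -/
noncomputable def sact (P : NPBP C A Q Γ) (c0 : C) (m : ℕ) : St P m → (C × (A → Set (St P m))) ⊕ A
  | none => Sum.inl (c0, fun _ => {s | ∃ f L, s = some (f, L) ∧ Sil P [(false, P.start, f.1)] L.1})
  | some (f, ⟨[], _⟩) => Sum.inr f.2.choose
  | some (f, ⟨(b, p, q) :: L, _⟩) => match P.act p with
    | .ask c next => Sum.inl (c, fun a => {s | ∃ r ∈ next a, ∃ L', s = some (f, L') ∧ Sil P ((b, r, q) :: L) L'.1})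
    | _ => Sum.inl (c0, fun _ => ∅)

theorem sound {P : NPBP C A Q Γ} {c0 : C} {m : ℕ} {I : C → A} {s t : St P m} {l : List C}
    (h : TRun (sact P c0 m) I s l t) {a : A} (ht : sact P c0 m t = Sum.inr a) :
    ∀ f L, s = some (f, L) → ∃ l', Drv P I L.1 l' ∧ l'.Perm l ∧ P.act f.1 = .out a := by
  induction h with
  | nil s =>
    rintro f ⟨L, hL⟩ rfl
    rcases L with _ | ⟨⟨b, p, q⟩, L⟩
    · simp only [sact] at ht
      have h1 := f.2.choose_spec
      rw [Sum.inr_injective ht] at h1
      exact ⟨[], Drv.nil, List.Perm.refl _, h1⟩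
    · exfalso
      simp only [sact] at ht
      split at ht <;> simp at ht
  | cons s s' t c next l h1 h2 _ ih =>
    rintro f ⟨L, hL⟩ rfl
    rcases L with _ | ⟨⟨b, p, q⟩, L⟩
    · simp [sact] at h1
    · simp only [sact] at h1
      split at h1
      · rename_i c' next' hact
        have h3 := Sum.inl_injective h1
        have h4 : c' = c := (Prod.mk.inj h3).1
        subst h4
        have h5 := (Prod.mk.inj h3).2
        rw [← h5] at h2
        obtain ⟨r, hr, L', rfl, hsil⟩ := h2
        obtain ⟨l', h6, h7, h8⟩ := ih ht f L' rfl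
        obtain ⟨l'', h9, h10⟩ := sil_drv hsil h6
        cases h9 with
        | cons _ _ _ _ l1 n1 l2 h11 h12 =>
          refine ⟨(c' :: l1) ++ l2, Drv.cons b p q L _ _ l2 (Der.ask b p r q c' next' l1 n1 hact hr h11) h12, ?_, h8⟩
          exact List.Perm.cons c' (h10.trans h7)
      · have h3 := Sum.inl_injective h1
        have h5 := (Prod.mk.inj h3).2
        rw [← h5] at h2
        exact absurd h2 (Set.notMem_empty _)

/-- The lists of obligations with derivations of bounded size. -/
inductive Inv (P : NPBP C A Q Γ) (I : C → A) : ℕ → List (Bool × Q × Q) → List C → ℕ → Prop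
  | nil (e : ℕ) : Inv P I e [] [] 0
  | cons (e : ℕ) (b : Bool) (p q : Q) (L : List (Bool × Q × Q)) (l1 : List C) (n : ℕ) (l2 : List C) (M : ℕ) :
      Der P I b p q l1 n → n < 2 ^ e → Inv P I (e + 1) L l2 M → Inv P I e ((b, p, q) :: L) (l1 ++ l2) (n + 1 + M)

theorem complete {P : NPBP C A Q Γ} (c0 : C) {m : ℕ} {I : C → A} (f : {f : Q // ∃ a, P.act f = .out a}) :
    ∀ M e L l, Inv P I e L l M → L.length + e = m + 2 ∨ L = [] →
      ∃ L' : {L : List (Bool × Q × Q) // L.length ≤ m + 1}, Sil P L L'.1 ∧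
        ∃ l', TRun (sact P c0 m) I (some (f, L')) l' (some (f, ⟨[], Nat.zero_le _⟩)) ∧ l'.Perm l := by
  intro M
  induction M using Nat.strong_induction_on with
  | _ M IH =>
    intro e L l hinv hlen
    cases hinv with
    | nil => exact ⟨⟨[], Nat.zero_le _⟩, Sil.refl _, [], TRun.nil _, List.Perm.refl _⟩
    | cons _ b p q L l1 n l2 M hder hn hrest =>
      have hlen' : L.length + 1 + e = m + 2 := by
        rcases hlen with h | h
        · exact h
        · exact absurd h (by simp)
      cases hder with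
      | nil =>
        obtain ⟨L', h1, l', h2, h3⟩ := IH M (by omega) (e + 1) L l2 hrest (Or.inl (by omega))
        exact ⟨L', Sil.nil b p L L'.1 h1, l', h2, h3⟩
      | ask _ _ r _ c next l n hact hr hder =>
        have he : 1 ≤ e := by
          by_contra hc
          have : e = 0 := by omega
          subst this
          simp at hn
        obtain ⟨L', h1, l', h2, h3⟩ := IH (n + 1 + M) (by omega) e ((b, r, q) :: L) (l ++ l2)
          (Inv.cons e b r q L l n l2 M hder (by omega) hrest) (Or.inl hlen')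
        refine ⟨⟨(b, p, q) :: L, by rw [List.length_cons]; omega⟩, Sil.refl _, c :: l', ?_, List.Perm.cons c h3⟩
        refine TRun.cons _ (some (f, L')) _ c
          (fun a => {s | ∃ r ∈ next a, ∃ L', s = some (f, L') ∧ Sil P ((b, r, q) :: L) L'.1}) l' ?_ ?_ h2
        · simp only [sact, hact]
        · exact ⟨r, hr, L', rfl, h1⟩
      | pushpop _ _ p1 p2 r _ γ next next' l1 l2' n1 n2 hact h1 hd1 hact2 h2 hd2 =>
        obtain ⟨e', rfl⟩ : ∃ e', e = e' + 1 := by
          rcases e with _ | e'
          · simp at hn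
          · exact ⟨e', rfl⟩
        rw [pow_succ] at hn
        rcases le_total n1 n2 with hle | hle
        · obtain ⟨L', h3, l', h4, h5⟩ := IH (n1 + 1 + (n2 + 1 + M)) (by omega) e'
            ((true, p1, p2) :: (b, r, q) :: L) (l1 ++ (l2' ++ l2))
            (Inv.cons e' true p1 p2 _ l1 n1 _ _ hd1 (by omega)
              (Inv.cons (e' + 1) b r q L l2' n2 l2 M hd2 (by rw [pow_succ]; omega) hrest))
            (Or.inl (by simp only [List.length_cons]; omega))
          refine ⟨L', Sil.pp b p p1 p2 r q γ next next' L L'.1 hact h1 hact2 h2 h3, l', h4, ?_⟩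
          rw [List.append_assoc]
          exact h5
        · obtain ⟨L', h3, l', h4, h5⟩ := IH (n2 + 1 + (n1 + 1 + M)) (by omega) e'
            ((b, r, q) :: (true, p1, p2) :: L) (l2' ++ (l1 ++ l2))
            (Inv.cons e' b r q _ l2' n2 _ _ hd2 (by omega)
              (Inv.cons (e' + 1) true p1 p2 L l1 n1 l2 M hd1 (by rw [pow_succ]; omega) hrest))
            (Or.inl (by simp only [List.length_cons]; omega))
          refine ⟨L', Sil.pp' b p p1 p2 r q γ next next' L L'.1 hact h1 hact2 h2 h3, l', h4, h5.trans ?_⟩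
          rw [← List.append_assoc]
          exact List.Perm.append_right _ List.perm_append_comm
      | pushopen _ p1 _ γ next _ n hact h1 hd =>
        obtain ⟨L', h3, l', h4, h5⟩ := IH (n + 1 + M) (by omega) e ((false, p1, q) :: L) (l1 ++ l2)
          (Inv.cons e false p1 q L l1 n l2 M hd (by omega) hrest) (Or.inl hlen')
        exact ⟨L', Sil.po p p1 q γ next L L'.1 hact h1 h3, l', h4, h5⟩

/-- Lists of bounded length. -/
theorem card_lists {α : Type} [Fintype α] (m : ℕ) :
    ∃ _ : Fintype {L : List α // L.length ≤ m + 1},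
      Fintype.card {L : List α // L.length ≤ m + 1} ≤ (Fintype.card α + 1) ^ (m + 1) := by
  have hinj : Function.Injective
      (fun (L : {L : List α // L.length ≤ m + 1}) (i : Fin (m + 1)) => L.1[(i : ℕ)]?) := by
    rintro ⟨L, hL⟩ ⟨L', hL'⟩ h
    refine Subtype.ext (List.ext_getElem? fun i => ?_)
    rcases lt_or_ge i (m + 1) with hi | hi
    · exact congrFun h ⟨i, hi⟩
    · change L[i]? = L'[i]?
      rw [List.getElem?_eq_none (by omega), List.getElem?_eq_none (by omega)]
  have := Fintype.ofInjective _ hinj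
  refine ⟨this, (Fintype.card_le_of_injective _ hinj).trans (le_of_eq ?_)⟩
  rw [Fintype.card_fun, Fintype.card_option, Fintype.card_fin]

/-- Q2: a nondeterministic pushdown program running for `2 ^ m` steps is simulated by a nondeterministic program without
stack. -/
theorem sim [Fintype Q] (P : NPBP C A Q Γ) (c0 : C) (m : ℕ) :
    ∃ S ≤ (2 * Fintype.card Q ^ 2 + 2) ^ (m + 2), ∃ B : NBP C A S, ∀ I,
      (∀ l n a, P.Ends I l n a → n ≤ 2 ^ m → ∃ l', B.Ends I (c0 :: l') a ∧ l'.Perm l) ∧
      (∀ l' a, B.Ends I l' a → ∃ l n, P.Ends I l n a ∧ l'.Perm (c0 :: l)) := by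
  classical
  obtain ⟨hfin, hcard⟩ := card_lists (α := Bool × Q × Q) m
  have hS : Fintype.card (St P m) ≤ (2 * Fintype.card Q ^ 2 + 2) ^ (m + 2) := by
    rw [Fintype.card_option, Fintype.card_prod]
    have h1 : Fintype.card {f : Q // ∃ a, P.act f = .out a} ≤ Fintype.card Q := Fintype.card_subtype_le _
    have h2 : Fintype.card (Bool × Q × Q) + 1 = 2 * Fintype.card Q ^ 2 + 1 := by
      rw [Fintype.card_prod, Fintype.card_prod, Fintype.card_bool]
      ring
    rw [h2] at hcard
    set X := 2 * Fintype.card Q ^ 2 + 1 with hX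
    have h3 : Fintype.card Q ≤ X := by nlinarith [Nat.zero_le (Fintype.card Q)]
    calc Fintype.card {f : Q // ∃ a, P.act f = .out a} *
          Fintype.card {L : List (Bool × Q × Q) // L.length ≤ m + 1} + 1 ≤ X * X ^ (m + 1) + 1 :=
          Nat.add_le_add_right (Nat.mul_le_mul (h1.trans h3) hcard) 1
      _ = X ^ (m + 2) + 1 ^ (m + 2) := by rw [one_pow]; ring
      _ ≤ (X + 1) ^ (m + 2) := pow_add_pow_le (Nat.zero_le _) (Nat.zero_le _) (by omega)
  refine ⟨_, hS, toNBP none (sact P c0 m), fun I => ⟨fun l n a hl hn => ?_, fun l' a hl' => ?_⟩⟩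
  · obtain ⟨f, hf, hfa⟩ := (ends_iff_der P I l n a).1 hl
    have hinv := Inv.cons (P := P) (I := I) (m + 1) false P.start f [] l n [] 0 hf
      (lt_of_le_of_lt hn (Nat.pow_lt_pow_right (by norm_num) (Nat.lt_succ_self m))) (Inv.nil _)
    obtain ⟨L', h1, l', h2, h3⟩ := complete c0 (m := m) ⟨f, a, hfa⟩ _ (m + 1) _ _ hinv (Or.inl (by simp; omega))
    rw [List.append_nil] at h3
    refine ⟨l', toNBP_ends.2 ⟨_, TRun.cons none _ _ c0 _ l' rfl ⟨⟨f, a, hfa⟩, L', rfl, h1⟩ h2, ?_⟩, h3⟩
    have h4 : ∀ h : ∃ a, P.act f = .out a, h.choose = a := by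
      intro h
      exact (NPAct.out.inj (hfa.symm.trans h.choose_spec)).symm
    simp only [sact]
    rw [h4]
  · obtain ⟨t, h1, h2⟩ := toNBP_ends.1 hl'
    cases h1 with
    | nil => simp [sact] at h2
    | cons _ s' _ c next l h3 h4 h5 =>
      simp only [sact] at h3
      have h6 := Sum.inl_injective h3
      have h7 : c0 = c := (Prod.mk.inj h6).1
      subst h7
      have h8 := (Prod.mk.inj h6).2
      rw [← h8] at h4
      obtain ⟨f, L, rfl, hsil⟩ := h4
      obtain ⟨l'', h9, h10, h11⟩ := sound h5 h2 f L rfl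
      obtain ⟨l3, h12, h13⟩ := sil_drv hsil h9
      cases h12 with
      | cons _ _ _ _ l1 n1 l2 h14 h15 =>
        cases h15
        rw [List.append_nil] at h13
        exact ⟨l1, n1, (ends_iff_der P I l1 n1 a).2 ⟨f.1, h14, h11⟩, (List.Perm.cons c0 (h13.trans h10)).symm⟩

end Pool.Agent.Helper1.NS
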