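import Mathlib

/-!
# Windows of a computation in an expanding network
-/

namespace Pool.Agent.Helper1.NS

variable {d N : ℕ} {A : Type}

open Classical in
/-- The nodes of level `i` at whose value a query is made in the window `[a, b)`. -/
noncomputable def outs (q : ℕ → Fin d × A) (x : ℕ → Fin N → A) (i a b : ℕ) : Finset (Fin N) :=
  Finset.univ.filter fun u => ∃ t ∈ Finset.Ico a b, (q t).2 = x i u

open Classical in
/-- The guessed nodes of level `i + 1` in the window `[a, b)`: a query at the value is made, and one of the right cells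
of the node is not queried. -/
noncomputable def guessed (q : ℕ → Fin d × A) (g : Fin d → Fin N → Fin N) (x : ℕ → Fin N → A) (i a b : ℕ) :
    Finset (Fin N) :=
  (outs q x (i + 1) a b).filter fun u => ∃ s, ∀ t ∈ Finset.Ico a b, q t ≠ (s, x i (g s u))

theorem mem_outs {q : ℕ → Fin d × A} {x : ℕ → Fin N → A} {i a b : ℕ} {u : Fin N} :
    u ∈ outs q x i a b ↔ ∃ t ∈ Finset.Ico a b, (q t).2 = x i u := by
  simp [outs]

/-- The number of the nodes of a level at whose value a query is made is at most the length of the window. -/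
theorem card_outs_le {q : ℕ → Fin d × A} {x : ℕ → Fin N → A} {i a b : ℕ} (hx : Function.Injective (x i)) :
    (outs q x i a b).card ≤ b - a := by
  classical
  have h : ∀ u ∈ outs q x i a b, ∃ t, t ∈ Finset.Ico a b ∧ (q t).2 = x i u := fun u hu => mem_outs.1 hu
  choose! f hf using h
  calc (outs q x i a b).card ≤ (Finset.Ico a b).card := by
        refine Finset.card_le_card_of_injOn f (fun u hu => Finset.mem_coe.2 (hf u hu).1) ?_
        intro u hu v hv huv
        apply hx
        rw [← (hf u hu).2, ← (hf v hv).2, huv]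
    _ = b - a := Nat.card_Ico a b

/-- Cutting a window. -/
theorem outs_cut (q : ℕ → Fin d × A) (x : ℕ → Fin N → A) (i a b c : ℕ) :
    (outs q x i a b).card ≤ (outs q x i a c).card + (outs q x i c b).card := by
  classical
  refine (Finset.card_le_card ?_).trans (Finset.card_union_le _ _)
  intro u hu
  obtain ⟨t, ht, htu⟩ := mem_outs.1 hu
  rw [Finset.mem_union, mem_outs, mem_outs]
  rw [Finset.mem_Ico] at ht
  rcases lt_or_ge t c with h | h
  · exact Or.inl ⟨t, Finset.mem_Ico.2 ⟨ht.1, h⟩, htu⟩
  · exact Or.inr ⟨t, Finset.mem_Ico.2 ⟨h, ht.2⟩, htu⟩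

/-- A window with many nodes can be cut into two windows with many nodes. -/
theorem exists_cut {q : ℕ → Fin d × A} {x : ℕ → Fin N → A} {i a b m : ℕ} (hx : Function.Injective (x i))
    (hab : a ≤ b) (hm : m + m ≤ (outs q x i a b).card) :
    ∃ c, a ≤ c ∧ c ≤ b ∧ m ≤ (outs q x i a c).card ∧ m ≤ (outs q x i c b).card := by
  classical
  have hex : ∃ c, a ≤ c ∧ m ≤ (outs q x i a c).card := ⟨b, hab, by omega⟩
  obtain ⟨hac, hmc⟩ := Nat.find_spec hex
  set c := Nat.find hex with hc
  have hcb : c ≤ b := Nat.find_min' hex ⟨hab, by omega⟩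
  have hle : (outs q x i a c).card ≤ m := by
    rcases Nat.eq_or_lt_of_le hac with h | h
    · rw [← h]
      have : outs q x i a a = ∅ := by
        ext u
        simp [mem_outs]
      rw [this]
      simp
    · have h1 : ¬ (a ≤ c - 1 ∧ m ≤ (outs q x i a (c - 1)).card) := Nat.find_min hex (by omega)
      have h2 : (outs q x i a (c - 1)).card < m := by
        by_contra h3
        exact h1 ⟨by omega, not_lt.1 h3⟩
      have h3 := outs_cut q x i a c (c - 1)
      have h4 := card_outs_le (q := q) (a := c - 1) (b := c) hx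
      omega
  have h5 := outs_cut q x i a b c
  exact ⟨c, hac, hcb, hmc, by omega⟩

/-- If the network expands and no window has many guessed nodes, then a window with many nodes of a high level is
long. -/
theorem window_long {q : ℕ → Fin d × A} {g : Fin d → Fin N → Fin N} {x : ℕ → Fin N → A} {ρ R L : ℕ}
    (hE : ∀ X : Finset (Fin N), ρ ≤ X.card →
      4 * ρ ≤ (Finset.univ.filter fun v => ∃ s, ∃ u ∈ X, g s u = v).card)
    (hx : ∀ i ≤ R, Function.Injective (x i))
    (hD : ∀ i < R, ∀ a b, a ≤ b → b ≤ L → (guessed q g x i a b).card < ρ) :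
    ∀ i ≤ R, ∀ a b, a ≤ b → b ≤ L → 2 * ρ ≤ (outs q x i a b).card → 2 ^ i * (2 * ρ) ≤ b - a := by
  classical
  intro i
  induction i with
  | zero =>
    intro hi a b hab hbL hm
    have := card_outs_le (q := q) (a := a) (b := b) (hx 0 hi)
    omega
  | succ i ih =>
    intro hi a b hab hbL hm
    have hg := hD i (by omega) a b hab hbL
    set X := (outs q x (i + 1) a b) \ (guessed q g x i a b) with hX
    have hXc : ρ ≤ X.card := by
      have h1 : (outs q x (i + 1) a b).card - (guessed q g x i a b).card ≤ X.card :=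
        Finset.le_card_sdiff (guessed q g x i a b) (outs q x (i + 1) a b)
      omega
    have hsub : (Finset.univ.filter fun v => ∃ s, ∃ u ∈ X, g s u = v) ⊆ outs q x i a b := by
      intro v hv
      obtain ⟨s, u, hu, rfl⟩ := (Finset.mem_filter.1 hv).2
      rw [hX, Finset.mem_sdiff, guessed, Finset.mem_filter, not_and, not_exists] at hu
      have h1 := hu.2 hu.1 s
      push Not at h1
      obtain ⟨t, ht, hqt⟩ := h1
      exact mem_outs.2 ⟨t, ht, by rw [hqt]⟩
    have h4 : 2 * ρ + 2 * ρ ≤ (outs q x i a b).card := by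
      have h1 := (hE X hXc).trans (Finset.card_le_card hsub)
      omega
    obtain ⟨c, hac, hcb, h5, h6⟩ := exists_cut (hx i (by omega)) hab h4
    have h7 := ih (by omega) a c hac (by omega) h5
    have h8 := ih (by omega) c b hcb hbL h6
    rw [pow_succ]
    have h9 : 2 ^ i * 2 * (2 * ρ) = 2 ^ i * (2 * ρ) + 2 ^ i * (2 * ρ) := by ring
    omega

/-- In an expanding network some window of a computation which is not long has many guessed nodes. -/
theorem exists_window {q : ℕ → Fin d × A} {g : Fin d → Fin N → Fin N} {x : ℕ → Fin N → A} {ρ R L : ℕ}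
    (hE : ∀ X : Finset (Fin N), ρ ≤ X.card →
      4 * ρ ≤ (Finset.univ.filter fun v => ∃ s, ∃ u ∈ X, g s u = v).card)
    (hx : ∀ i ≤ R, Function.Injective (x i)) (hL : L < 2 ^ R * (2 * ρ))
    (hout : 2 * ρ ≤ (outs q x R 0 L).card) :
    ∃ i < R, ∃ a b, a ≤ b ∧ b ≤ L ∧ ρ ≤ (guessed q g x i a b).card := by
  by_contra hno
  push Not at hno
  have := window_long hE hx (fun i hi a b hab hb => hno i hi a b hab hb) R le_rfl 0 L (Nat.zero_le _) le_rfl hout
  omega

end Pool.Agent.Helper1.NS
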